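import Pool.Agent.V7H91.SH.S2

/-!
# Finiteness of the 2-primary part
-/

set_option autoImplicit false
set_option linter.unusedSectionVars false

open NumberField IsDedekindDomain WeierstrassCurve

namespace Pool.Agent.V7H91.SH

open Pool.Agent.TH841.NF.D (Sha)
open Pool.Agent.Y682 (S1 S2 vv vv_coe IsT Zc Zc_card Zc_lower LL1 LL2 Sq quot_eq)
open Pool.Agent.V7H91.GT
open Pool.Agent.Y699
open Pool.Agent.Y715.Z (even1 S2_S1 em0)
open H385 (ZI RQ im1 nrm)

section

variable {M : Type} [Field M] [NumberField M]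

lemma even_of {v : HeightOneSpectrum (𝓞 M)} {b : Mˣ} {B : M} (hB : v.valuation M B = 1)
    (h : ∃ z m : v.adicCompletion M, z ≠ 0 ∧ algebraMap M (v.adicCompletion M) (b : M) * z ^ 2 = m ∧
      S1 0 (algebraMap M (v.adicCompletion M) B) m) :
    Even (Multiplicative.toAdd (v.valuationOfNeZero b)) := by
  obtain ⟨z, m, hz, hzm, hm⟩ := h
  have hwB : vv v (algebraMap M (v.adicCompletion M) B) = 1 := by rw [vv_coe, hB]
  obtain ⟨g, hg⟩ := even1 _ hwB hm
  have hvz : vv v z ≠ 0 := (Valuation.ne_zero_iff _).2 hz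
  rw [← hzm, map_mul, vv_coe, map_pow] at hg
  have h1 : v.valuation M (b : M) = (g / vv v z) ^ 2 := by
    rw [div_pow, ← hg]
    field_simp
  have h2 : g / vv v z ≠ 0 := by
    intro h0
    rw [h0, zero_pow two_ne_zero] at h1
    exact b.ne_zero ((Valuation.zero_iff _).1 h1)
  obtain ⟨k, hk⟩ := WithZero.ne_zero_iff_exists.1 h2
  rw [← hk, ← v.valuationOfNeZero_eq, ← WithZero.coe_pow] at h1
  have h3 := WithZero.coe_injective h1
  rw [h3, toAdd_pow, nsmul_eq_mul]
  exact even_two.mul_right _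

/-- the elements of order two in Sha -/
theorem fin_two {i B : M} (hi : i ^ 2 = -1) {W : WeierstrassCurve M} (hT : IsT W 0 B) :
    Finite {x : Sha W // 2 • x = 0} := by
  classical
  obtain ⟨T, hT0, hTs⟩ := Pool.Agent.H437R2.Man.MW.sel_finite
    {v : HeightOneSpectrum (𝓞 M) | v.valuation M B ≠ 1}
    (Pool.Agent.H437R2.Man.MW.finite_val_ne_one B hT.hB)
  let U : Set (Mˣ ⧸ Sq M) := insert 1 ((fun t : Mˣ => (t : Mˣ ⧸ Sq M)) '' {t : Mˣ | (t : M) ∈ T})
  have hUf : U.Finite := by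
    refine Set.Finite.insert _ (Set.Finite.image _ ?_)
    exact Set.Finite.preimage (Units.val_injective.injOn) T.finite_toSet
  have hfin : Finite U := hUf.to_subtype
  have key : ∀ b : Mˣ, (∀ v : HeightOneSpectrum (𝓞 M), ∃ z m : v.adicCompletion M, z ≠ 0 ∧
      algebraMap M (v.adicCompletion M) (b : M) * z ^ 2 = m ∧
        S1 0 (algebraMap M (v.adicCompletion M) B) m) → (b : Mˣ ⧸ Sq M) ∈ U := by
    intro b hb
    obtain ⟨t, ht, c, hc, hbc⟩ := hTs b (fun v hv => even_of (by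
      have h1 : ¬ v.valuation M B ≠ 1 := hv
      exact not_not.1 h1) (hb v))
    refine Set.mem_insert_of_mem _ ⟨Units.mk0 t (hT0 t ht), ht, ?_⟩
    change ((Units.mk0 t (hT0 t ht) : Mˣ) : Mˣ ⧸ Sq M) = (b : Mˣ ⧸ Sq M)
    rw [quot_eq]
    refine ⟨Units.mk0 c hc, Units.ext ?_⟩
    rw [Units.val_mul, Units.val_pow_eq_pow_val, Units.val_mk0, Units.val_mk0, hbc]
  have H1 : ∀ b : Mˣ, LL1 (0 : M) B (b : M) → (b : Mˣ ⧸ Sq M) ∈ U := by
    intro b hb
    apply key
    intro v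
    have := hb.1 v
    rwa [map_zero] at this
  have H2 : ∀ b : Mˣ, LL2 (0 : M) B (b : M) → (b : Mˣ ⧸ Sq M) ∈ U := by
    intro b hb
    apply key
    intro v
    have := Pool.Agent.Y682.charZero_adic v
    have h1 := hb.1 v
    rw [map_zero] at h1
    refine S2_S1 (i := algebraMap M (v.adicCompletion M) i) ?_ h1
    rw [← map_pow, hi, map_neg, map_one]
  obtain ⟨hf, -⟩ := Zc_card hT (U := U) (V := U) (Or.inl rfl) H1 H2
  exact (Zc_lower hT).1

lemma fin_pow {G : Type*} [AddCommGroup G] (h : Finite {x : G // 2 • x = 0}) (n : ℕ) :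
    {x : G | 2 ^ n • x = 0}.Finite := by
  induction n with
  | zero =>
    refine (Set.finite_singleton (0 : G)).subset ?_
    intro x hx
    have h1 : 2 ^ 0 • x = 0 := hx
    rwa [pow_zero, one_smul] at h1
  | succ n ih =>
    have h1 : {x : G | 2 ^ (n + 1) • x = 0} = (fun x : G => 2 • x) ⁻¹' {x : G | 2 ^ n • x = 0} := by
      ext x
      change 2 ^ (n + 1) • x = 0 ↔ 2 ^ n • (2 • x) = 0
      rw [smul_smul, ← pow_succ]
    rw [h1]
    refine ih.preimage' fun b _ => ?_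
    rcases Set.eq_empty_or_nonempty ((fun x : G => 2 • x) ⁻¹' {b}) with h2 | ⟨x0, hx0⟩
    · rw [h2]
      exact Set.finite_empty
    · have h3 : {x : G | 2 • x = 0}.Finite := @Set.toFinite _ _ h
      refine (h3.image fun t => x0 + t).subset ?_
      intro x hx
      refine ⟨x - x0, ?_, add_sub_cancel _ _⟩
      have h4 : 2 • x = b := hx
      have h5 : 2 • x0 = b := hx0
      change 2 • (x - x0) = 0
      rw [smul_sub, h4, h5, sub_self]

end

section

variable {K M : Type} [Field K] [NumberField K] [Field M] [NumberField M] [Algebra K M]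
  {e : ZI ≃+* 𝓞 K} {S : Finset ZI} {H : Finset (Finset ZI)} {y : Finset ZI → 𝓞 M}

lemma crv_isTM {D : ZI} (hD : D ≠ 0) : IsT (crv (aM M e D)) 0 (-(aM M e D) ^ 2) := by
  have h1 : aM M e D ≠ 0 := by
    intro h
    have h1 : ((e D : 𝓞 K) : K) = 0 := (map_eq_zero _).1 h
    have h2 : (e D : 𝓞 K) = 0 := RingOfIntegers.ext h1
    exact hD ((map_eq_zero_iff e e.injective).1 h2)
  have h0 : -(aM M e D) ^ 2 ≠ 0 := neg_ne_zero.2 (pow_ne_zero 2 h1)
  refine ⟨rfl, rfl, rfl, rfl, rfl, h0, ?_⟩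
  rw [zero_pow two_ne_zero, zero_sub, neg_ne_zero]
  exact mul_ne_zero (by norm_num) h0

/-- **The 2-primary part of Sha over `M` is finite.** -/
theorem sha_finM [IsGalois K M] {D : ZI} (hD : Good D) (hL : Leaf D S) (C : Ctx e S H y) :
    {x : Sha (crv (aM M e D)) | ∃ n : ℕ, 2 ^ n • x = 0}.Finite := by
  have hi : (algebraMap K M ((e im1 : 𝓞 K) : K)) ^ 2 = -1 := by
    have h1 := Pool.Agent.Y715.Z.im1_sq e
    have h2 : (((e im1 : 𝓞 K) : K)) ^ 2 = -1 := h1
    rw [← map_pow, h2, map_neg, map_one]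
  have h1 := fin_two hi (crv_isTM (M := M) (e := e) hD.ps.ne)
  haveI := fin_dim (K := K) (M := M)
  have hN : 0 < Module.finrank K M := Module.finrank_pos
  refine (fin_pow h1 (Module.finrank K M)).subset ?_
  rintro x ⟨n, hn⟩
  have h2 := sha_M hD hL C n x hn
  have h3 : addOrderOf x ∣ 2 ^ n := addOrderOf_dvd_of_nsmul_eq_zero hn
  have h4 : addOrderOf x ∣ Module.finrank K M := addOrderOf_dvd_of_nsmul_eq_zero h2
  obtain ⟨j, hj, hj'⟩ := (Nat.dvd_prime_pow Nat.prime_two).1 h3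
  change 2 ^ Module.finrank K M • x = 0
  rw [← addOrderOf_dvd_iff_nsmul_eq_zero, hj']
  refine pow_dvd_pow 2 ?_
  rw [hj'] at h4
  exact (Nat.lt_two_pow_self).le.trans (Nat.le_of_dvd hN h4)

end

end Pool.Agent.V7H91.SH
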