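import Pool.Agent.V7H91.SH.S1
import Pool.Agent.V7H91.GT.G9
import Pool.Agent.Y682.YS.Quad

/-!
# The 2-primary part of Sha of `y² = x³ - D² x` over the subfields of the multiquadratic towers
-/

set_option autoImplicit false
set_option linter.unusedSectionVars false

open NumberField IsDedekindDomain WeierstrassCurve

namespace Pool.Agent.V7H91.SH

open Pool.Agent.TH841.SH.D (Pt act Gal Coch IsCoc IsCob LocTriv cob)
open Pool.Agent.TH841.NF (Sc tm tF tm_some act_some' pt_ext)
open Pool.Agent.TH841.NF.D (Sha)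
open Pool.Agent.Y715.CS (scI scE Fx gal_stab)
open Pool.Agent.Y715.CS.YS (sha_FG exists_e')
open Pool.Agent.V7H91.GT
open Pool.Agent.Y699
open Pool.Agent.Y682 (IsT)
open Pool.Agent.Y715.Z (em0 em0_ne)
open H385 (ZI RQ im1 nrm)

/-- a sum of signs -/
lemma sign_sum {H : Finset (Finset ZI)} {ε : Finset ZI → ℤ}
    (hε : ∀ T ∈ H, ε T = 1 ∨ ε T = -1) (hsd : ∀ T ∈ H, ∀ T' ∈ H, symmDiff T T' ∈ H)
    (hm : ∀ T ∈ H, ∀ T' ∈ H, ε (symmDiff T T') = ε T * ε T') {T₀ : Finset ZI} (h0 : T₀ ∈ H)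
    (h1 : ε T₀ = -1) : ∑ T ∈ H, ε T = 0 := by
  classical
  have h2 : ∑ T ∈ H, ε T = ∑ T ∈ H, ε (symmDiff T T₀) := by
    refine (Finset.sum_bij' (fun T _ => symmDiff T T₀) (fun T _ => symmDiff T T₀) ?_ ?_ ?_ ?_ ?_)
    · intro T hT
      exact hsd T hT T₀ h0
    · intro T hT
      exact hsd T hT T₀ h0
    · intro T _
      exact symmDiff_symmDiff_cancel_right _ _
    · intro T _
      exact symmDiff_symmDiff_cancel_right _ _
    · intro T _
      rw [symmDiff_symmDiff_cancel_right]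
  have h3 : ∑ T ∈ H, ε (symmDiff T T₀) = -∑ T ∈ H, ε T := by
    rw [← Finset.sum_neg_distrib]
    refine Finset.sum_congr rfl fun T hT => ?_
    rw [hm T hT T₀ h0, h1]
    ring
  rw [h3] at h2
  omega

section

variable {K M : Type} [Field K] [NumberField K] [Field M] [NumberField M] [Algebra K M]
  {e : ZI ≃+* 𝓞 K} {S : Finset ZI} {H : Finset (Finset ZI)} {y : Finset ZI → 𝓞 M}

/-- the image of `D` in `M` -/
noncomputable abbrev aM (M : Type) [Field M] [Algebra K M] (e : ZI ≃+* 𝓞 K) (D : ZI) : M :=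
  algebraMap K M ((e D : 𝓞 K) : K)

lemma crv_isT {D : ZI} (hD : D ≠ 0) : IsT (crv ((e D : 𝓞 K) : K)) 0 (em0 e (-D ^ 2)) := by
  have h0 : em0 e (-D ^ 2) ≠ 0 := em0_ne e (neg_ne_zero.2 (pow_ne_zero 2 hD))
  refine ⟨rfl, rfl, rfl, ?_, rfl, h0, ?_⟩
  · change -((e D : 𝓞 K) : K) ^ 2 = em0 e (-D ^ 2)
    rw [map_neg, map_pow]
    rfl
  · rw [zero_pow two_ne_zero, zero_sub, neg_ne_zero]
    exact mul_ne_zero (by norm_num) h0

/-- **The 2-primary part over `K`.** -/
theorem sha_K {D : ZI} (hD : Good D) (n : ℕ) (x : Sha (crv ((e D : 𝓞 K) : K)))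
    (hx : 2 ^ n • x = 0) : x = 0 :=
  sha_pow2 e hD (crv_isT hD.ps.ne) n x hx

/-- **The 2-primary part over `M`.** -/
theorem sha_M [IsGalois K M] {D : ZI} (hD : Good D) (hL : Leaf D S) (C : Ctx e S H y)
    (k : ℕ) (x : Sha (crv (aM M e D))) (hx : 2 ^ k • x = 0) : Module.finrank K M • x = 0 := by
  classical
  obtain ⟨ε₀, he⟩ := exists_e' (K := K) (F := M)
  -- the square roots
  obtain ⟨u, hu⟩ : ∃ u : {T // T ∈ H} → M, ∀ T, u T = ((y T.1 : 𝓞 M) : M) := ⟨_, fun T => rfl⟩
  have hu2 : ∀ T, u T ^ 2 = aM M e (∏ l ∈ T.1, l) := by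
    intro T
    rw [hu]
    have h1 := congrArg (fun x : 𝓞 M => (x : M)) (C.sq T.1 T.2)
    exact h1
  have hS0 : ∀ T ∈ H, ∏ l ∈ T, l ≠ 0 := fun T hT =>
    Finset.prod_ne_zero_iff.2 fun l hl => (hL.pp l (C.sub T hT hl)).pr.ne_zero
  have ha0 : ∀ z : ZI, z ≠ 0 → aM M e z ≠ 0 := by
    intro z hz h
    have h1 : ((e z : 𝓞 K) : K) = 0 := (map_eq_zero _).1 h
    have h2 : (e z : 𝓞 K) = 0 := RingOfIntegers.ext h1
    exact hz ((map_eq_zero_iff e e.injective).1 h2)
  have hune : ∀ T, u T ≠ 0 := by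
    intro T h0
    have h1 := hu2 T
    rw [h0, zero_pow two_ne_zero] at h1
    exact ha0 _ (hS0 T.1 T.2) h1.symm
  have S0 : ∀ T : {T // T ∈ H}, Sc (RingHom.id M) (u T) (crv (aM M e D))
      ((crv ((e (D * ∏ l ∈ T.1, l) : 𝓞 K) : K)).baseChange M) := by
    intro T
    refine ⟨hune T, ?_, ?_, ?_, ?_, ?_⟩
    · change algebraMap K M 0 = (0 : M) * _
      rw [map_zero, zero_mul]
    · change algebraMap K M 0 = (0 : M) * _
      rw [map_zero, zero_mul]
    · change algebraMap K M 0 = (0 : M) * _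
      rw [map_zero, zero_mul]
    · change algebraMap K M (-((e (D * ∏ l ∈ T.1, l) : 𝓞 K) : K) ^ 2) = (-(aM M e D) ^ 2) * _
      have h4 : u T ^ 4 = (u T ^ 2) ^ 2 := by ring
      rw [h4, hu2, map_neg, map_pow, map_mul e]
      have h5 : (((e D * e (∏ l ∈ T.1, l) : 𝓞 K)) : K) =
          ((e D : 𝓞 K) : K) * ((e (∏ l ∈ T.1, l) : 𝓞 K) : K) := rfl
      rw [h5, map_mul]
      ring
    · change algebraMap K M 0 = (0 : M) * _
      rw [map_zero, zero_mul]
  have hyp : ∀ T : {T // T ∈ H}, ∀ (n : ℕ) (x : Sha (crv ((e (D * ∏ l ∈ T.1, l) : 𝓞 K) : K))),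
      2 ^ n • x = 0 → x = 0 := by
    intro T n x hx
    exact sha_K (leaf_good hD (hL.subset (C.sub T.1 T.2))) n x hx
  have key := sha_FG (K := K) (F := M) ε₀ he (T := {T // T ∈ H})
    (fun T => crv ((e (D * ∏ l ∈ T.1, l) : 𝓞 K) : K)) (crv (aM M e D)) u S0 ?_ 2 hyp k x hx
  · have h1 : Fintype.card {T // T ∈ H} = Module.finrank K M := by
      rw [Fintype.card_coe, C.card]
    rw [← h1]
    exact key
  · intro g hg P
    obtain ⟨σ, hσ⟩ := gal_stab ε₀ he g
    set m : M →+* AlgebraicClosure M := algebraMap M (AlgebraicClosure M) with hm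
    set φ : AlgebraicClosure M →+* AlgebraicClosure M :=
      (ε₀.symm : AlgebraicClosure K →+* AlgebraicClosure M).comp
        ((g : AlgebraicClosure K →+* AlgebraicClosure K).comp
          (ε₀ : AlgebraicClosure M →+* AlgebraicClosure K)) with hφ
    have hφa : ∀ x, φ x = ε₀.symm (g (ε₀ x)) := fun x => rfl
    have hφm : ∀ x : M, φ (m x) = m (σ x) := by
      intro x
      rw [hφa, hσ, RingEquiv.symm_apply_apply]
    -- the signs
    obtain ⟨ε, hε⟩ : ∃ ε : Finset ZI → ℤ, ∀ T, ε T = if σ • y T = y T then 1 else -1 :=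
      ⟨_, fun T => rfl⟩
    have hε1 : ∀ T ∈ H, ε T = 1 ∨ ε T = -1 := by
      intro T _
      rw [hε]
      split_ifs
      · exact Or.inl rfl
      · exact Or.inr rfl
    have hεy : ∀ T ∈ H, σ • y T = (ε T : 𝓞 M) * y T := by
      intro T hT
      rw [hε]
      by_cases h : σ • y T = y T
      · rw [if_pos h, h, Int.cast_one, one_mul]
      · rw [if_neg h, (C.sign e σ hT).resolve_left h, Int.cast_neg, Int.cast_one, neg_one_mul]
    have hyne : ∀ T (hT : T ∈ H), y T ≠ 0 := by
      intro T hT h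
      apply hune ⟨T, hT⟩
      rw [hu, h]
      rfl
    have hmul : ∀ T ∈ H, ∀ T' ∈ H, ε (symmDiff T T') = ε T * ε T' := by
      intro T hT T' hT'
      have h1 : y T * y T' ≠ 0 := mul_ne_zero (hyne T hT) (hyne T' hT')
      have h2 : ((ε (symmDiff T T') : ℤ) : 𝓞 M) = ((ε T * ε T' : ℤ) : 𝓞 M) := by
        apply mul_right_cancel₀ h1
        have h3 : σ • (y T * y T') = ((ε T * ε T' : ℤ) : 𝓞 M) * (y T * y T') := by
          rw [smul_mul', hεy T hT, hεy T' hT']
          push_cast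
          ring
        rw [← h3]
        rcases C.mul_y e hT hT' with h4 | h4
        · rw [h4, smul_mul', hεy _ (C.sd T hT T' hT'), smul_io]
          ring
        · rw [h4, smul_neg, smul_mul', hεy _ (C.sd T hT T' hT'), smul_io]
          ring
      exact_mod_cast h2
    obtain ⟨T₀, hT₀, hneg⟩ : ∃ T ∈ H, ε T = -1 := by
      by_contra hcon
      push Not at hcon
      apply hg
      have h5 : σ = 1 := by
        apply C.inj
        intro T hT
        have h6 := (hε1 T hT).resolve_right (hcon T hT)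
        rw [hεy T hT, h6, Int.cast_one, one_mul]
      intro x
      have h6 : φ (m x) = m x := by rw [hφm, h5]; rfl
      have h7 : ε₀.symm (g (ε₀ (m x))) = m x := h6
      have h9 := congrArg ε₀ h7
      rw [RingEquiv.apply_symm_apply] at h9
      exact h9
    have hε0 : ε ∅ = 1 := by
      have h1 := hmul ∅ C.zero ∅ C.zero
      rw [symmDiff_self, Finset.bot_eq_empty] at h1
      rcases hε1 ∅ C.zero with h2 | h2
      · exact h2
      · rw [h2] at h1
        norm_num at h1
    have hcu : ∀ T : {T // T ∈ H}, φ (m (u T)) = ((ε T.1 : ℤ) : AlgebraicClosure M) * m (u T) := by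
      intro T
      rw [hφm, hu]
      have h1 := congrArg (fun x : 𝓞 M => (x : M)) (hεy T.1 T.2)
      have h2 : σ ((y T.1 : 𝓞 M) : M) = ((ε T.1 : ℤ) : M) * ((y T.1 : 𝓞 M) : M) := by
        have h3 : ((σ • y T.1 : 𝓞 M) : M) = σ ((y T.1 : 𝓞 M) : M) := rfl
        rw [← h3, h1]
        push_cast
        rfl
      rw [h2, map_mul, map_intCast]
    have hmu : ∀ T, m (u T) ≠ 0 := fun T => (map_ne_zero m).2 (hune T)
    set E0 : {T // T ∈ H} := ⟨∅, C.zero⟩ with hE0
    have h10 : ∀ T : {T // T ∈ H}, tm (scI ε₀ he (S0 T))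
        (act (crv ((e (D * ∏ l ∈ T.1, l) : 𝓞 K) : K)) g.toAlgHom
          (tm (scE ε₀ he (S0 T)) P)) = (ε T.1) •
        tm (scI ε₀ he (S0 E0))
        (act (crv ((e (D * ∏ l ∈ E0.1, l) : 𝓞 K) : K)) g.toAlgHom
          (tm (scE ε₀ he (S0 E0)) P)) := by
      intro T
      rcases P with _ | ⟨X, Y, h⟩
      · exact (smul_zero _).symm
      · have hX : ∀ T : {T // T ∈ H},
            ε₀.symm (g (ε₀ X * (ε₀ (m (u T))) ^ 2)) * ((m (u T))⁻¹) ^ 2 = φ X := by
          intro T
          rw [map_mul, map_mul, map_pow, map_pow, ← hφa, ← hφa, hcu T]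
          have h1 : (((ε T.1 : ℤ) : AlgebraicClosure M)) ^ 2 = 1 := by
            rcases hε1 T.1 T.2 with h | h <;> rw [h] <;> norm_num
          have h2 : (m (u T)) ^ 2 * ((m (u T))⁻¹) ^ 2 = 1 := by
            rw [← mul_pow, mul_inv_cancel₀ (hmu T), one_pow]
          calc φ X * (((ε T.1 : ℤ) : AlgebraicClosure M) * m (u T)) ^ 2 *
                ((m (u T))⁻¹) ^ 2 = φ X * (((ε T.1 : ℤ) : AlgebraicClosure M)) ^ 2 *
                ((m (u T)) ^ 2 * ((m (u T))⁻¹) ^ 2) := by ring
            _ = φ X := by rw [h1, h2, mul_one, mul_one]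
        have hY : ∀ T : {T // T ∈ H},
            ε₀.symm (g (ε₀ Y * (ε₀ (m (u T))) ^ 3)) * ((m (u T))⁻¹) ^ 3 =
            ((ε T.1 : ℤ) : AlgebraicClosure M) * φ Y := by
          intro T
          rw [map_mul, map_mul, map_pow, map_pow, ← hφa, ← hφa, hcu T]
          have h1 : (((ε T.1 : ℤ) : AlgebraicClosure M)) ^ 2 = 1 := by
            rcases hε1 T.1 T.2 with h | h <;> rw [h] <;> norm_num
          have h2 : (m (u T)) ^ 3 * ((m (u T))⁻¹) ^ 3 = 1 := by
            rw [← mul_pow, mul_inv_cancel₀ (hmu T), one_pow]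
          calc φ Y * (((ε T.1 : ℤ) : AlgebraicClosure M) * m (u T)) ^ 3 *
                ((m (u T))⁻¹) ^ 3 = ((ε T.1 : ℤ) : AlgebraicClosure M) * φ Y *
                (((ε T.1 : ℤ) : AlgebraicClosure M)) ^ 2 *
                ((m (u T)) ^ 3 * ((m (u T))⁻¹) ^ 3) := by ring
            _ = ((ε T.1 : ℤ) : AlgebraicClosure M) * φ Y := by rw [h1, h2, mul_one, mul_one]
        have hY0 := hY E0
        have hE01 : ε E0.1 = 1 := hε0
        rw [hE01, Int.cast_one, one_mul] at hY0
        rcases hε1 T.1 T.2 with hc | hc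
        · rw [hc, one_smul, tm_some, act_some', tm_some, tm_some, act_some', tm_some]
          refine pt_ext _ _ ?_ ?_
          · exact (hX T).trans (hX E0).symm
          · refine (hY T).trans ?_
            rw [hc, Int.cast_one, one_mul]
            exact hY0.symm
        · rw [hc, neg_smul, one_smul, tm_some, act_some', tm_some, tm_some, act_some', tm_some]
          refine Eq.trans ?_ (Affine.Point.neg_some _).symm
          refine pt_ext _ _ ?_ ?_
          · exact (hX T).trans (hX E0).symm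
          · refine (hY T).trans ?_
            rw [hc, Int.cast_neg, Int.cast_one, neg_one_mul]
            have h3 : ∀ z w : AlgebraicClosure M,
                ((crv (aM M e D)).baseChange (AlgebraicClosure M)).toAffine.negY z w = -w := by
              intro z w
              unfold Affine.negY
              have e1 : ((crv (aM M e D)).baseChange (AlgebraicClosure M)).toAffine.a₁ = 0 :=
                map_zero m
              have e3 : ((crv (aM M e D)).baseChange (AlgebraicClosure M)).toAffine.a₃ = 0 :=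
                map_zero m
              rw [e1, e3, zero_mul, sub_zero, sub_zero]
            refine Eq.trans ?_ (h3 _ _).symm
            rw [neg_inj]
            exact hY0.symm
    rw [Finset.sum_congr rfl fun T _ => h10 T, ← Finset.sum_smul]
    have h11 : ∑ T : {T // T ∈ H}, ε T.1 = 0 := by
      rw [Finset.sum_coe_sort H ε]
      exact sign_sum hε1 C.sd hmul hT₀ hneg
    rw [h11, zero_smul]

end

end Pool.Agent.V7H91.SH
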