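import Mathlib
import Pool.Agent.Y699.Qk
import Pool.Agent.Y682.ZS
import Pool.Agent.Y715.Z.Sel

/-!
# The 2-torsion of Sha of `y² = x³ - D² x` over `ℚ(i)`
-/

set_option autoImplicit false
set_option linter.unusedSectionVars false

open NumberField IsDedekindDomain

namespace Pool.Agent.V7H91.SH

open Pool.Agent.Y682 (S1 S2 vv vv_coe IsT Zc Zc_card Zc_lower LL1 LL2 Sq quot_eq)
open Pool.Agent.Y699
open Pool.Agent.Y715.Z
open H385 (ZI RQ im1 nrm)
open Pool.Agent.W164.RC (two2 prim_iff_dvd unit_norm unit_cases)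

section loc

variable {L : Type} [Field L] (w : Valuation L (WithZero (Multiplicative ℤ)))

/-- the local image at a prime dividing `D` exactly once, for `y² = x³ - D² x` -/
lemma cls2 (hens : ∀ t : L, w t < 1 → ∃ y : L, y ^ 2 = 1 + t) {D m i : L} (hi : i ^ 2 = -1)
    (h2 : w 2 = 1) (hD0 : D ≠ 0) (hD : w D = WithZero.exp (-1 : ℤ)) (h : S1 0 (-D ^ 2) m) :
    ∃ c : L, c ≠ 0 ∧ (m = c ^ 2 ∨ m = D * c ^ 2) := by
  have hi0 : i ≠ 0 := by
    rintro rfl
    rw [zero_pow two_ne_zero] at hi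
    have : (1 : L) = 0 := by linear_combination hi
    exact one_ne_zero this
  have hwD : w D ≠ 0 := (Valuation.ne_zero_iff _).2 hD0
  rcases h with h | h | ⟨hm, y, hy⟩
  · exact ⟨1, one_ne_zero, Or.inl (by rw [h, one_pow])⟩
  · exact ⟨i * D, mul_ne_zero hi0 hD0, Or.inl (by rw [h, mul_pow, hi]; ring)⟩
  · have hwm : w m ≠ 0 := (Valuation.ne_zero_iff _).2 hm
    rw [zero_mul, add_zero] at hy
    by_cases hy0 : y = 0
    · rw [hy0, zero_pow two_ne_zero] at hy
      have h3 : (m - D) * (m + D) = 0 := by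
        rcases mul_eq_zero.1 hy.symm with h4 | h4
        · exact absurd h4 hm
        · linear_combination h4
      rcases mul_eq_zero.1 h3 with h4 | h4
      · exact ⟨1, one_ne_zero, Or.inr (by rw [one_pow, mul_one]; linear_combination h4)⟩
      · exact ⟨i, hi0, Or.inr (by rw [hi]; linear_combination h4)⟩
    rcases lt_trichotomy (w m) (w D) with h1 | h1 | h1
    · -- `v(m) > v(D)`
      have ht : w (-(m ^ 2 / D ^ 2)) < 1 := by
        rw [Valuation.map_neg, map_div₀, map_pow, map_pow,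
          div_lt_iff₀ (pow_pos (zero_lt_iff.2 hwD) 2), one_mul]
        exact pow_lt_pow_left₀ h1 zero_le two_ne_zero
      obtain ⟨r, hr⟩ := hens _ ht
      have e1 : (i * D * r) ^ 2 = m ^ 2 + -D ^ 2 := by
        rw [mul_pow, mul_pow, hi, hr]
        field_simp
        ring
      have hr0 : i * D * r ≠ 0 := by
        intro h0
        rw [← e1, h0, zero_pow two_ne_zero, mul_zero] at hy
        exact hy0 (pow_eq_zero_iff two_ne_zero |>.1 hy)
      refine ⟨y / (i * D * r), div_ne_zero hy0 hr0, Or.inl ?_⟩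
      rw [div_pow, hy, ← e1]
      rw [mul_div_assoc, div_self (pow_ne_zero 2 hr0), mul_one]
    · -- `v(m) = v(D)`
      have hmD : m = D * (m / D) := by field_simp
      set t := m / D with ht
      have hwt : w t = 1 := by
        rw [ht, map_div₀, h1]
        exact div_self hwD
      have ht0 : t ≠ 0 := by
        intro h0
        rw [h0, map_zero] at hwt
        exact zero_ne_one hwt
      have e1 : y ^ 2 = D ^ 3 * (t * ((t - 1) * (t + 1))) := by
        rw [hy, hmD]
        ring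
      have hlt : w ((t - 1) * (t + 1)) < 1 := by
        by_contra hcon
        have h3 : w ((t - 1) * (t + 1)) ≤ 1 := by
          rw [map_mul]
          refine mul_le_one' ?_ ?_
          · rw [sub_eq_add_neg]
            refine (Valuation.map_add _ _ _).trans (max_le hwt.le ?_)
            rw [Valuation.map_neg, map_one]
          · refine (Valuation.map_add _ _ _).trans (max_le hwt.le ?_)
            rw [map_one]
        have h4 : w ((t - 1) * (t + 1)) = 1 := le_antisymm h3 (not_lt.1 hcon)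
        have h5 := congrArg w e1
        rw [map_pow, map_mul, map_mul, h4, hwt, mul_one, mul_one, map_pow, hD] at h5
        apply exp_sq (g := w y / WithZero.exp (-1 : ℤ))
        rw [div_pow, h5]
        rw [pow_succ]
        exact mul_div_cancel_left₀ _ (pow_ne_zero _ WithZero.exp_ne_zero)
      have hor : w (t - 1) < 1 ∨ w (t + 1) < 1 := by
        by_contra hcon
        push Not at hcon
        rw [map_mul] at hlt
        exact absurd hlt (not_lt.2 (one_le_mul_of_one_le_of_one_le hcon.1 hcon.2))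
      rcases hor with h5 | h5
      · obtain ⟨r, hr⟩ := hens _ h5
        have e2 : r ^ 2 = t := by rw [hr]; ring
        have hr0 : r ≠ 0 := by
          rintro rfl
          rw [zero_pow two_ne_zero] at e2
          exact ht0 e2.symm
        exact ⟨r, hr0, Or.inr (by rw [hmD, e2])⟩
      · have h6 : w (-t - 1) < 1 := by
          have : -t - 1 = -(t + 1) := by ring
          rw [this, Valuation.map_neg]
          exact h5
        obtain ⟨r, hr⟩ := hens _ h6
        have e2 : r ^ 2 = -t := by rw [hr]; ring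
        have hr0 : r ≠ 0 := by
          rintro rfl
          rw [zero_pow two_ne_zero] at e2
          exact ht0 (neg_eq_zero.1 e2.symm)
        refine ⟨i * r, mul_ne_zero hi0 hr0, Or.inr ?_⟩
        rw [mul_pow, hi, e2, hmD]
        ring
    · -- `v(m) < v(D)`
      have ht : w (-(D ^ 2 / m ^ 2)) < 1 := by
        rw [Valuation.map_neg, map_div₀, map_pow, map_pow,
          div_lt_iff₀ (pow_pos (zero_lt_iff.2 hwm) 2), one_mul]
        exact pow_lt_pow_left₀ h1 zero_le two_ne_zero
      obtain ⟨r, hr⟩ := hens _ ht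
      have e1 : (m * r) ^ 2 = m ^ 2 + -D ^ 2 := by
        rw [mul_pow, hr]
        field_simp
      have hr0 : m * r ≠ 0 := by
        intro h0
        rw [← e1, h0, zero_pow two_ne_zero, mul_zero] at hy
        exact hy0 (pow_eq_zero_iff two_ne_zero |>.1 hy)
      refine ⟨y / (m * r), div_ne_zero hy0 hr0, Or.inl ?_⟩
      rw [div_pow, hy, ← e1]
      rw [mul_div_assoc, div_self (pow_ne_zero 2 hr0), mul_one]

end loc

section

variable {K : Type} [Field K] [NumberField K] (e : ZI ≃+* 𝓞 K)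

variable {z : ZI} (hz : Prime z)

/-- the local condition at a prime dividing `D` -/
lemma loc_bad2 (hP : PP z) {D d d' D' : ZI} (hDsq : Squarefree D) (hzD : z ∣ D)
    {b w : K} (hw : w ≠ 0) (hb : b = em0 e d * w ^ 2)
    (h : ∃ y m : (plc e hz).adicCompletion K, y ≠ 0 ∧ ph e hz b * y ^ 2 = m ∧
      ∃ c : (plc e hz).adicCompletion K, c ≠ 0 ∧ (m = c ^ 2 ∨ m = ph e hz (em0 e D) * c ^ 2)) :
    (¬ z ∣ d → qr z d = 1) ∧ (Squarefree d → z ∣ d → d * d' = D * D' ^ 2 → ¬ z ∣ d' → qr z d' = 1) := by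
  obtain ⟨y, m, hy, hym, c, hc, hmc⟩ := h
  have hD0 : D ≠ 0 := hDsq.ne_zero
  have hwD : vv (plc e hz) (ph e hz (em0 e D)) = WithZero.exp (-1 : ℤ) := by
    rw [vv_coe, val_sqf e hz hDsq hzD]
  have hphD : ph e hz (em0 e D) ≠ 0 := (map_ne_zero _).2 (em0_ne e hD0)
  have hpw : ph e hz w ≠ 0 := (map_ne_zero _).2 hw
  have hvy : vv (plc e hz) y ≠ 0 := (Valuation.ne_zero_iff _).2 hy
  have hvc : vv (plc e hz) c ≠ 0 := (Valuation.ne_zero_iff _).2 hc
  have hvw : vv (plc e hz) (ph e hz w) ≠ 0 := (Valuation.ne_zero_iff _).2 hpw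
  have hm2 : ph e hz (em0 e d) * (ph e hz w * y) ^ 2 = m := by
    rw [← hym, hb, map_mul, map_pow]; ring
  constructor
  · intro hzd
    rcases hmc with h1 | h1
    · apply qr_of_sqrt e hz hP hzd (x := c / (ph e hz w * y))
      rw [div_pow, ← h1, ← hm2]
      field_simp
    · exfalso
      have h3 := congrArg (vv (plc e hz)) (hm2.trans h1)
      rw [map_mul, map_mul, vv_coe, val_one e hz hzd, one_mul, map_pow, map_pow, map_mul, hwD] at h3
      apply exp_sq (g := vv (plc e hz) (ph e hz w) * vv (plc e hz) y / vv (plc e hz) c)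
      rw [div_pow, h3]
      field_simp
  · intro hd hzd hdd hzd'
    rcases hmc with h1 | h1
    · exfalso
      have h3 := congrArg (vv (plc e hz)) (hm2.trans h1)
      rw [map_mul, vv_coe, val_sqf e hz hd hzd, map_pow, map_pow, map_mul] at h3
      apply exp_sq (g := vv (plc e hz) c / (vv (plc e hz) (ph e hz w) * vv (plc e hz) y))
      rw [div_pow, ← h3]
      field_simp
    · have hpd : ph e hz (em0 e d) ≠ 0 := (map_ne_zero _).2 (em0_ne e hd.ne_zero)
      apply qr_of_sqrt e hz hP hzd'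
        (x := ph e hz (em0 e D') * (ph e hz w * y) / c)
      have h4 : ph e hz (em0 e d) * ph e hz (em0 e d') =
          ph e hz (em0 e D) * ph e hz (em0 e D') ^ 2 := by
        rw [← map_mul, ← map_mul, hdd, map_mul, map_mul, map_pow, map_pow]
      have h5 : ph e hz (em0 e d) * (ph e hz w * y) ^ 2 = ph e hz (em0 e D) * c ^ 2 := hm2.trans h1
      rw [div_pow, mul_pow]
      rw [div_eq_iff (pow_ne_zero 2 hc)]
      apply mul_left_cancel₀ (mul_ne_zero hphD hpd)
      linear_combination (ph e hz (em0 e D) * ph e hz (em0 e D') ^ 2) * h5 -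
        (ph e hz (em0 e D) * c ^ 2) * h4

/-- **the Selmer group** -/
theorem sel2 {D : ZI} (hg : Good D) {b : K} (hb : b ≠ 0)
    (h : ∀ v : HeightOneSpectrum (𝓞 K), ∃ y m : v.adicCompletion K, y ≠ 0 ∧
      algebraMap K (v.adicCompletion K) b * y ^ 2 = m ∧
        S1 0 (algebraMap K (v.adicCompletion K) (em0 e (-D ^ 2))) m) :
    ∃ c : K, b = c ^ 2 ∨ b = em0 e D * c ^ 2 := by
  classical
  obtain ⟨d, w, hd, hw, hbd⟩ := exists_sqf e hb
  have hD0 := hg.ps.ne
  have hDsq := hg.ps.sqf
  have hp := fam_PF hD0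
  -- the primes of `d`
  have hprime : ∀ ρ : ZI, Prime ρ → ρ ∣ d → ρ ∣ D := by
    intro ρ hρ hρd
    by_contra hρD
    have hρD' : ¬ ρ ∣ -D ^ 2 := fun h5 => hρD (hρ.dvd_of_dvd_pow ((dvd_neg).1 h5))
    exact not_dvd_of_loc e hρ hρD' hd hw hbd (h (plc e hρ)) hρd
  set V : Finset {π : ZI // π ∈ PD D} := Finset.univ with hV
  set S := V.filter (fun i => fam D i ∣ d) with hS
  have hSV : S ⊆ V := Finset.filter_subset _ _
  have hDV : DD (fam D) V = D := hg.ps.DD
  have hSd : DD (fam D) S ∣ d := by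
    unfold DD
    refine Finset.prod_dvd_of_coprime ?_ ?_
    · intro i _ j _ hij
      exact (hp.pp i).cop (hp.pp j) fun h => hij (hp.inj h)
    · intro i hi
      exact (Finset.mem_filter.1 hi).2
  obtain ⟨u, hu⟩ := hSd
  have huu : IsUnit u := by
    by_contra hnu
    have hu0 : u ≠ 0 := by
      rintro rfl
      exact hd.ne_zero (by rw [hu, mul_zero])
    obtain ⟨ρ, hρ, hρu⟩ := WfDvdMonoid.exists_irreducible_factor hnu hu0
    have hρ' : Prime ρ := irreducible_iff_prime.1 hρ
    have h1 : ρ ∣ d := by rw [hu]; exact hρu.mul_left _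
    have h2 := hprime ρ hρ' h1
    rw [← hDV] at h2
    unfold DD at h2
    obtain ⟨i, hi, hρi⟩ := (hρ'.dvd_finsetProd_iff _).1 h2
    have h3 : fam D i ∣ ρ := by
      obtain ⟨c, hc⟩ := hρi
      rcases (hp.pp i).pr.irreducible.isUnit_or_isUnit hc with h4 | h4
      · exact absurd h4 hρ'.not_isUnit
      · obtain ⟨c', hc'⟩ := h4.exists_right_inv
        exact ⟨c', by rw [hc, mul_assoc, hc', mul_one]⟩
    have h4 : i ∈ S := Finset.mem_filter.2 ⟨hi, h3.trans h1⟩
    have h5 : fam D i * fam D i ∣ d := by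
      rw [hu]
      refine mul_dvd_mul ?_ (h3.trans hρu)
      unfold DD
      exact Finset.dvd_prod_of_mem _ h4
    exact (hp.pp i).pr.not_isUnit (hd _ h5)
  have hun : u.norm = 1 := by
    obtain ⟨e', rfl⟩ := huu
    exact unit_norm e'
  have hDS : DD (fam D) V = DD (fam D) S * DD (fam D) (V \ S) := by
    unfold DD
    rw [mul_comm]
    exact (Finset.prod_sdiff hSV).symm
  have hnd : ∀ (T : Finset {π : ZI // π ∈ PD D}) (j : {π : ZI // π ∈ PD D}), j ∉ T →
      ¬ fam D j ∣ DD (fam D) T := by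
    intro T j hT h
    unfold DD at h
    obtain ⟨i, hi, hji⟩ := ((hp.pp j).pr.dvd_finsetProd_iff _).1 h
    exact not_dvd_of_ne hp (fun h' => hT (by rw [h']; exact hi)) hji
  -- the local conditions
  have hloc : ∀ j ∈ V, (j ∉ S → qr (fam D j) u * qr (fam D j) (DD (fam D) S) = 1) ∧
      (j ∈ S → qr (fam D j) u * qr (fam D j) (DD (fam D) (V \ S)) = 1) := by
    intro j hj
    have hP := hp.pp j
    have hjD : fam D j ∣ D := (Finset.dvd_prod_of_mem (fam D) hj).trans (dvd_of_eq hDV)
    have h2' : (plc e hP.pr).valuation K 2 = 1 := by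
      have := val_one e hP.pr (not_dvd_two hP)
      rwa [map_ofNat] at this
    obtain ⟨h1, h2⟩ := loc_bad2 (d := d) (d' := u * DD (fam D) (V \ S)) (D' := u) e hP.pr hP
      hDsq hjD hw hbd (by
        obtain ⟨y, m, hy, hym, hm⟩ := h (plc e hP.pr)
        refine ⟨y, m, hy, hym, ?_⟩
        refine cls2 (vv (plc e hP.pr)) (fun t ht => hens_odd (plc e hP.pr) h2' t ht)
          (i := ph e hP.pr (em0 e im1)) ?_ ?_ ((map_ne_zero _).2 (em0_ne e hD0)) ?_ ?_
        · rw [← map_pow, Pool.Agent.Y715.Z.im1_sq, map_neg, map_one]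
        · have h5 : (2 : (plc e hP.pr).adicCompletion K) = ph e hP.pr 2 := by
            rw [map_ofNat]
          rw [h5, vv_coe, h2']
        · rw [vv_coe, val_sqf e hP.pr hDsq hjD]
        · have h5 : -(ph e hP.pr (em0 e D)) ^ 2 =
              algebraMap K ((plc e hP.pr).adicCompletion K) (em0 e (-D ^ 2)) := by
            rw [map_neg, map_neg, map_pow, map_pow]
          rw [h5]
          exact hm)
    constructor
    · intro hjS
      have h3 := h1 (fun h' => hjS (Finset.mem_filter.2 ⟨hj, h'⟩))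
      rw [hu, qr_mul hP] at h3
      rw [mul_comm]
      exact h3
    · intro hjS
      have h3 := h2 hd (Finset.mem_filter.1 hjS).2 (by
        have h5 : D = DD (fam D) S * DD (fam D) (V \ S) := hDV.symm.trans hDS
        have h6 : d * (u * DD (fam D) (V \ S)) =
            (DD (fam D) S * DD (fam D) (V \ S)) * u ^ 2 := by rw [hu]; ring
        exact h6.trans (congrArg (fun t => t * u ^ 2) h5.symm)) (by
        intro h'
        rcases hP.pr.dvd_or_dvd h' with h4 | h4
        · exact not_dvd_unit hP hun h4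
        · exact hnd _ _ (fun h5 => (Finset.mem_sdiff.1 h5).2 hjS) h4)
      rw [qr_mul hP] at h3
      exact h3
  obtain ⟨⟨u0, hu0⟩, hSS⟩ := ends hp (wt_sum hg.ps hg.five) (ker_of_good hg) hun hSV hloc
  refine ⟨em0 e u0 * w, ?_⟩
  rcases hSS with h1 | h1
  · left
    have h2 : DD (fam D) S = 1 := by rw [h1]; unfold DD; rw [Finset.prod_empty]
    rw [hbd, hu, h2, one_mul, hu0, map_pow]
    ring
  · right
    rw [hbd, hu, h1, hDV, hu0, map_mul, map_pow]
    ring

/-- there is at most one element of Sha killed by two -/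
theorem sha_two2 {D : ZI} (hg : Good D) {W : WeierstrassCurve K} (hT : IsT W 0 (em0 e (-D ^ 2)))
    (x : Pool.Agent.TH841.NF.D.Sha W) (hx : 2 • x = 0) : x = 0 := by
  classical
  have hD0 : em0 e D ≠ 0 := em0_ne e hg.ps.ne
  let U : Set (Kˣ ⧸ Sq K) := {(1 : Kˣ ⧸ Sq K), ((Units.mk0 (em0 e D) hD0 : Kˣ) : Kˣ ⧸ Sq K)}
  have hUf : U.Finite := Set.toFinite U
  have hfin : Finite U := hUf.to_subtype
  have hU2 : Nat.card U ≤ 2 := by
    have h1 : U.ncard ≤ 2 := by
      refine (Set.ncard_insert_le _ _).trans ?_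
      rw [Set.ncard_singleton]
    exact h1
  have key : ∀ b : Kˣ, (∃ c : K, (b : K) = c ^ 2 ∨ (b : K) = em0 e D * c ^ 2) →
      (b : Kˣ ⧸ Sq K) ∈ U := by
    rintro b ⟨c, hc⟩
    have hc0 : c ≠ 0 := by
      rintro rfl
      rcases hc with hc | hc
      · rw [zero_pow two_ne_zero] at hc; exact b.ne_zero hc
      · rw [zero_pow two_ne_zero, mul_zero] at hc; exact b.ne_zero hc
    rcases hc with hc | hc
    · left
      have h1 : (1 : Kˣ ⧸ Sq K) = ((1 : Kˣ) : Kˣ ⧸ Sq K) := rfl
      rw [h1, eq_comm, quot_eq]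
      refine ⟨Units.mk0 c hc0, Units.ext ?_⟩
      rw [Units.val_mul, Units.val_one, one_mul, Units.val_pow_eq_pow_val, Units.val_mk0, hc]
    · right
      show (b : Kˣ ⧸ Sq K) = ((Units.mk0 (em0 e D) hD0 : Kˣ) : Kˣ ⧸ Sq K)
      rw [eq_comm, quot_eq]
      refine ⟨Units.mk0 c hc0, Units.ext ?_⟩
      rw [Units.val_mul, Units.val_pow_eq_pow_val, Units.val_mk0, Units.val_mk0, hc]
  have H1 : ∀ b : Kˣ, LL1 (0 : K) (em0 e (-D ^ 2)) (b : K) → (b : Kˣ ⧸ Sq K) ∈ U := by
    intro b hb
    apply key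
    apply sel2 e hg b.ne_zero
    intro v
    have := hb.1 v
    rwa [map_zero] at this
  have H2 : ∀ b : Kˣ, LL2 (0 : K) (em0 e (-D ^ 2)) (b : K) → (b : Kˣ ⧸ Sq K) ∈ U := by
    intro b hb
    apply key
    apply sel2 e hg b.ne_zero
    intro v
    have := Pool.Agent.Y682.charZero_adic v
    have h1 := hb.1 v
    rw [map_zero] at h1
    refine S2_S1 (i := algebraMap K (v.adicCompletion K) (em0 e im1)) ?_ h1
    rw [← map_pow, Pool.Agent.Y715.Z.im1_sq, map_neg, map_one]
  obtain ⟨hf, hc⟩ := Zc_card hT (U := U) (V := U) (Or.inl rfl) H1 H2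
  obtain ⟨h3, h4⟩ := Zc_lower hT
  have h5 : Nat.card {x : Pool.Agent.TH841.NF.D.Sha W // 2 • x = 0} ≤ 1 := by
    have h6 : Nat.card (Zc W) ≤ 4 := hc.trans (by nlinarith)
    have h7 : 1 ≤ 2 ^ (Module.finrank ℤ (Pool.Agent.Y682.MP W)) := Nat.one_le_two_pow
    have h8 := h4.trans h6
    nlinarith
  have h6 : Subsingleton {x : Pool.Agent.TH841.NF.D.Sha W // 2 • x = 0} :=
    Finite.card_le_one_iff_subsingleton.1 h5
  have h7 := @Subsingleton.elim _ h6 ⟨x, hx⟩ ⟨0, smul_zero _⟩
  exact congrArg Subtype.val h7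

/-- the 2-primary part of Sha is trivial -/
theorem sha_pow2 {D : ZI} (hg : Good D) {W : WeierstrassCurve K} (hT : IsT W 0 (em0 e (-D ^ 2)))
    (n : ℕ) (x : Pool.Agent.TH841.NF.D.Sha W) (hx : 2 ^ n • x = 0) : x = 0 := by
  induction n with
  | zero => rwa [pow_zero, one_smul] at hx
  | succ n ih =>
    apply ih
    apply sha_two2 e hg hT
    rw [smul_smul, mul_comm, ← pow_succ]
    exact hx

end

end Pool.Agent.V7H91.SH
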